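import Pool.Agent.L7h52.AR.Four

/-! Project LO (helper52), hard anchor MP_0ec205_nt: the concentration of linear forms in the
ordinates.  The deficiency of the exponential sum. -/

set_option autoImplicit false

open Finset MeasureTheory

namespace Pool.Agent.L7h52.LO

open Pool.Agent.L7h52.AR (G Dat cnt G_cont G_le G_eq msq G_abs G_neg)

/-- `|exp (i a) - 1| ^ 2` -/
noncomputable def sq1 (a : ℝ) : ℝ := 2 - 2 * Real.cos a

lemma sq1_eq (a : ℝ) : sq1 a = 4 * Real.sin (a / 2) ^ 2 := by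
  unfold sq1
  have h : Real.cos a = 2 * Real.cos (a / 2) ^ 2 - 1 := by
    rw [← Real.cos_two_mul]; congr 1; ring
  have h2 := Real.sin_sq_add_cos_sq (a / 2)
  rw [h]
  linarith

lemma sq1_nonneg (a : ℝ) : 0 ≤ sq1 a := by rw [sq1_eq]; positivity

lemma sq1_le (a : ℝ) : sq1 a ≤ a ^ 2 := by
  unfold sq1
  have := Real.one_sub_sq_div_two_le_cos (x := a)
  linarith

lemma sq1_ge (a : ℝ) (h : |a| ≤ 1) : 2 / 5 * a ^ 2 ≤ sq1 a := by
  unfold sq1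
  have hpi := Real.pi_gt_three
  have hpi2 := Real.pi_lt_d2
  have h1 := Real.cos_le_one_sub_mul_cos_sq (x := a) (by linarith)
  have h2 : (1 : ℝ) / 5 ≤ 2 / Real.pi ^ 2 := by
    rw [div_le_div_iff₀ (by norm_num) (by positivity)]
    nlinarith
  have h3 : 1 / 5 * a ^ 2 ≤ 2 / Real.pi ^ 2 * a ^ 2 := by gcongr
  linarith

lemma sq1_add (a b : ℝ) : sq1 (a + b) ≤ 2 * sq1 a + 2 * sq1 b := by
  rw [sq1_eq, sq1_eq, sq1_eq, show (a + b) / 2 = a / 2 + b / 2 by ring, Real.sin_add]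
  have h1 := Real.sin_sq_add_cos_sq (a / 2)
  have h2 := Real.sin_sq_add_cos_sq (b / 2)
  set p := Real.sin (a / 2)
  set q := Real.sin (b / 2)
  set c := Real.cos (a / 2)
  set d := Real.cos (b / 2)
  have h3 : (p * d + c * q) ^ 2 ≤ 2 * (p * d) ^ 2 + 2 * (c * q) ^ 2 := by
    nlinarith [sq_nonneg (p * d - c * q)]
  have h4 : (p * d) ^ 2 ≤ p ^ 2 := by
    have : d ^ 2 ≤ 1 := by nlinarith [sq_nonneg q]
    nlinarith [sq_nonneg p]
  have h5 : (c * q) ^ 2 ≤ q ^ 2 := by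
    have : c ^ 2 ≤ 1 := by nlinarith [sq_nonneg p]
    nlinarith [sq_nonneg q]
  linarith

lemma sq1_neg (a : ℝ) : sq1 (-a) = sq1 a := by unfold sq1; rw [Real.cos_neg]

lemma abs_sin_nat (k : ℕ) (x : ℝ) : |Real.sin (k * x)| ≤ k * |Real.sin x| := by
  induction k with
  | zero => simp
  | succ k ih =>
    push_cast
    rw [show ((k : ℝ) + 1) * x = k * x + x by ring, Real.sin_add]
    refine (abs_add_le _ _).trans ?_
    rw [abs_mul, abs_mul]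
    have h1 := Real.abs_cos_le_one x
    have h2 := Real.abs_cos_le_one (k * x)
    have h3 := abs_nonneg (Real.sin (k * x))
    have h4 := abs_nonneg (Real.sin x)
    have h5 : |Real.sin (k * x)| * |Real.cos x| ≤ |Real.sin (k * x)| * 1 := by gcongr
    have h6 : |Real.cos (k * x)| * |Real.sin x| ≤ 1 * |Real.sin x| := by gcongr
    linarith

lemma sq1_mul (k : ℕ) (a : ℝ) : sq1 (k * a) ≤ k ^ 2 * sq1 a := by
  rw [sq1_eq, sq1_eq, show (k : ℝ) * a / 2 = k * (a / 2) by ring]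
  have h1 := abs_sin_nat k (a / 2)
  have h2 : |Real.sin (k * (a / 2))| ^ 2 ≤ (k * |Real.sin (a / 2)|) ^ 2 :=
    pow_le_pow_left₀ (abs_nonneg _) h1 2
  rw [sq_abs, mul_pow, sq_abs] at h2
  linarith

/-- the deficiency -/
noncomputable def Dd (Γ : Finset ℝ) (v : ℝ) : ℝ := ∑ x ∈ Γ, ∑ y ∈ Γ, sq1 (v * (x - y))

lemma Dd_nonneg (Γ : Finset ℝ) (v : ℝ) : 0 ≤ Dd Γ v :=
  sum_nonneg fun _ _ => sum_nonneg fun _ _ => sq1_nonneg _

lemma G_sq (Γ : Finset ℝ) (v : ℝ) : ‖G Γ v‖ ^ 2 = (Γ.card : ℝ) ^ 2 - Dd Γ v / 2 := by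
  have h1 : ‖G Γ v‖ ^ 2 = ∑ x ∈ Γ, ∑ y ∈ Γ, Real.cos (v * (x - y)) := Pool.Agent.TH801.LR.Sx_sq Γ v
  rw [h1]
  have h2 : Dd Γ v = 2 * (Γ.card : ℝ) ^ 2 - 2 * ∑ x ∈ Γ, ∑ y ∈ Γ, Real.cos (v * (x - y)) := by
    unfold Dd sq1
    simp only [sum_sub_distrib, ← mul_sum, sum_const, nsmul_eq_mul]
    ring
  rw [h2]
  ring

lemma Dd_mul (Γ : Finset ℝ) (k : ℕ) (v : ℝ) : Dd Γ (k * v) ≤ k ^ 2 * Dd Γ v := by
  unfold Dd
  rw [mul_sum]
  refine sum_le_sum fun x _ => ?_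
  rw [mul_sum]
  refine sum_le_sum fun y _ => ?_
  rw [mul_assoc]
  exact sq1_mul k _

lemma Dd_add (Γ : Finset ℝ) (v w : ℝ) : Dd Γ (v + w) ≤ 2 * Dd Γ v + 2 * Dd Γ w := by
  unfold Dd
  rw [mul_sum, mul_sum, ← sum_add_distrib]
  refine sum_le_sum fun x _ => ?_
  rw [mul_sum, mul_sum, ← sum_add_distrib]
  refine sum_le_sum fun y _ => ?_
  rw [add_mul]
  exact sq1_add _ _

lemma Dd_neg (Γ : Finset ℝ) (v : ℝ) : Dd Γ (-v) = Dd Γ v := by
  unfold Dd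
  refine sum_congr rfl fun x _ => sum_congr rfl fun y _ => ?_
  rw [neg_mul, sq1_neg]

lemma Dd_sub (Γ : Finset ℝ) (v w : ℝ) : Dd Γ (v - w) ≤ 2 * Dd Γ v + 2 * Dd Γ w := by
  rw [sub_eq_add_neg]
  have := Dd_add Γ v (-w)
  rwa [Dd_neg] at this

lemma Dd_le {Γ : Finset ℝ} {T ℓ C : ℝ} (hD : Dat Γ T ℓ C) (v : ℝ) :
    Dd Γ v ≤ v ^ 2 * T ^ 2 * (Γ.card : ℝ) ^ 2 := by
  have h1 : ∀ x ∈ Γ, ∀ y ∈ Γ, sq1 (v * (x - y)) ≤ v ^ 2 * T ^ 2 := by
    intro x hx y hy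
    refine (sq1_le _).trans ?_
    rw [mul_pow]
    have h2 := hD.pos x hx
    have h3 := hD.pos y hy
    have h4 : (x - y) ^ 2 ≤ T ^ 2 := by
      apply sq_le_sq'
      · linarith
      · linarith
    gcongr
  unfold Dd
  calc ∑ x ∈ Γ, ∑ y ∈ Γ, sq1 (v * (x - y)) ≤ ∑ _x ∈ Γ, ∑ _y ∈ Γ, v ^ 2 * T ^ 2 :=
        sum_le_sum fun x hx => sum_le_sum fun y hy => h1 x hx y hy
    _ = v ^ 2 * T ^ 2 * (Γ.card : ℝ) ^ 2 := by
        simp only [sum_const, nsmul_eq_mul]; ring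

lemma Dd_cont (Γ : Finset ℝ) : Continuous (Dd Γ) := by
  unfold Dd sq1
  fun_prop

/-- the variance -/
lemma var_ge {Γ : Finset ℝ} {T ℓ C : ℝ} (hD : Dat Γ T ℓ C) (hT : 4 * C ^ 2 ≤ T) :
    T ^ 2 * (Γ.card : ℝ) ^ 2 / (128 * C ^ 4) ≤ ∑ x ∈ Γ, ∑ y ∈ Γ, (x - y) ^ 2 := by
  classical
  have hl0 : 0 < ℓ := by linarith [hD.hl]
  have hT0 : 0 < T := by linarith [hD.hT]
  have hC0 : 0 < C := by linarith [hD.hC]
  have hn : T * ℓ / C ≤ Γ.card := by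
    rw [div_le_iff₀ hC0]; linarith [hD.low]
  obtain ⟨h, hh⟩ : ∃ h : ℝ, h = T / (8 * C ^ 2) := ⟨_, rfl⟩
  have hh0 : 0 < h := by rw [hh]; positivity
  have hpt : ∀ x ∈ Γ, T ^ 2 * (Γ.card : ℝ) / (128 * C ^ 4) ≤ ∑ y ∈ Γ, (x - y) ^ 2 := by
    intro x _
    have h1 := hD.loc (x - h) (2 * h) (by linarith)
    have h2 : C * (2 * h + 1) * ℓ ≤ T * ℓ / C / 2 := by
      have e1 : 2 * h + 1 ≤ T / (2 * C ^ 2) := by
        have e2 : 1 ≤ T / (4 * C ^ 2) := by rw [le_div_iff₀ (by positivity)]; linarith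
        have e3 : 2 * h + T / (4 * C ^ 2) = T / (2 * C ^ 2) := by rw [hh]; field_simp; ring
        linarith
      calc C * (2 * h + 1) * ℓ ≤ C * (T / (2 * C ^ 2)) * ℓ := by gcongr
        _ = T * ℓ / C / 2 := by field_simp
    have h3 : ((Γ.filter (fun y => x - h ≤ y ∧ y ≤ x - h + 2 * h)).card : ℝ) ≤ Γ.card / 2 := by
      linarith
    have h4 : (Γ.card : ℝ) / 2 ≤ (Γ.filter (fun y => ¬ (x - h ≤ y ∧ y ≤ x - h + 2 * h))).card := by
      have e1 := Finset.card_filter_add_card_filter_not (s := Γ)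
        (fun y => x - h ≤ y ∧ y ≤ x - h + 2 * h)
      have e2 : ((Γ.filter (fun y => x - h ≤ y ∧ y ≤ x - h + 2 * h)).card : ℝ) +
          (Γ.filter (fun y => ¬ (x - h ≤ y ∧ y ≤ x - h + 2 * h))).card = Γ.card := by
        exact_mod_cast e1
      linarith
    calc T ^ 2 * (Γ.card : ℝ) / (128 * C ^ 4) = Γ.card / 2 * h ^ 2 := by
          rw [hh]; field_simp; ring
      _ ≤ (Γ.filter (fun y => ¬ (x - h ≤ y ∧ y ≤ x - h + 2 * h))).card * h ^ 2 := by gcongr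
      _ = ∑ _y ∈ Γ.filter (fun y => ¬ (x - h ≤ y ∧ y ≤ x - h + 2 * h)), h ^ 2 := by
          rw [sum_const, nsmul_eq_mul]
      _ ≤ ∑ y ∈ Γ.filter (fun y => ¬ (x - h ≤ y ∧ y ≤ x - h + 2 * h)), (x - y) ^ 2 := by
          refine sum_le_sum fun y hy => ?_
          rw [mem_filter] at hy
          have h5 := hy.2
          rw [not_and_or, not_le, not_le] at h5
          rcases h5 with h5 | h5
          · apply sq_le_sq'
            · linarith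
            · linarith
          · have : (x - y) ^ 2 = (y - x) ^ 2 := by ring
            rw [this]
            apply sq_le_sq'
            · linarith
            · linarith
      _ ≤ ∑ y ∈ Γ, (x - y) ^ 2 :=
          sum_le_sum_of_subset_of_nonneg (filter_subset _ _) fun _ _ _ => sq_nonneg _
  calc T ^ 2 * (Γ.card : ℝ) ^ 2 / (128 * C ^ 4) =
      ∑ _x ∈ Γ, T ^ 2 * (Γ.card : ℝ) / (128 * C ^ 4) := by
        rw [sum_const, nsmul_eq_mul]; ring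
    _ ≤ _ := sum_le_sum hpt

lemma Dd_ge {Γ : Finset ℝ} {T ℓ C : ℝ} (hD : Dat Γ T ℓ C) (hT : 4 * C ^ 2 ≤ T) (v : ℝ)
    (hv : |v| * T ≤ 1) : v ^ 2 * T ^ 2 * (Γ.card : ℝ) ^ 2 / (400 * C ^ 4) ≤ Dd Γ v := by
  have hC0 : 0 < C := by linarith [hD.hC]
  have h1 := var_ge hD hT
  have h2 : 2 / 5 * v ^ 2 * ∑ x ∈ Γ, ∑ y ∈ Γ, (x - y) ^ 2 ≤ Dd Γ v := by
    unfold Dd
    rw [mul_sum]
    refine sum_le_sum fun x hx => ?_
    rw [mul_sum]
    refine sum_le_sum fun y hy => ?_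
    have h3 := hD.pos x hx
    have h4 := hD.pos y hy
    have h5 : |x - y| ≤ T := by rw [abs_le]; constructor <;> linarith
    have h6 : |v * (x - y)| ≤ 1 := by
      rw [abs_mul]
      have := mul_le_mul_of_nonneg_left h5 (abs_nonneg v)
      linarith
    have h7 := sq1_ge _ h6
    rw [mul_pow] at h7
    linarith
  refine le_trans ?_ h2
  calc v ^ 2 * T ^ 2 * (Γ.card : ℝ) ^ 2 / (400 * C ^ 4) ≤
      2 / 5 * v ^ 2 * (T ^ 2 * (Γ.card : ℝ) ^ 2 / (128 * C ^ 4)) := by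
        rw [div_le_iff₀ (by positivity)]
        have e1 : 2 / 5 * v ^ 2 * (T ^ 2 * (Γ.card : ℝ) ^ 2 / (128 * C ^ 4)) * (400 * C ^ 4) =
          5 / 4 * (v ^ 2 * T ^ 2 * (Γ.card : ℝ) ^ 2) := by field_simp; ring
        rw [e1]
        have : 0 ≤ v ^ 2 * T ^ 2 * (Γ.card : ℝ) ^ 2 := by positivity
        linarith
    _ ≤ _ := by gcongr

end Pool.Agent.L7h52.LO
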