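import Pool.Agent.L7h52.LO.Dd

/-! Project LO: the exponential sum is not large between the peak at zero and a constant times
`log T`; the moments of high order. -/

set_option autoImplicit false

open Finset MeasureTheory

namespace Pool.Agent.L7h52.LO

open Pool.Agent.L7h52.AR (G Dat cnt G_cont G_le G_eq msq G_abs G_neg)

lemma gsq_cont (Γ : Finset ℝ) : Continuous (fun v : ℝ => ‖G Γ v‖ ^ 2) := by
  have := G_cont Γ
  fun_prop

/-- the mean square, in the variable of `G` -/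
lemma msv {Γ : Finset ℝ} {T ℓ C : ℝ} (hD : Dat Γ T ℓ C) (V : ℝ) (hV : ℓ ≤ V) :
    ∫ v in (-V)..V, ‖G Γ v‖ ^ 2 ≤ 44 * V * (C * (T * ℓ)) := by
  have hl0 : 0 < ℓ := by linarith [hD.hl]
  have hpi := Real.pi_pos
  have h1 := msq hD (1 / (2 * Real.pi)) V (by linarith) (by
    rw [abs_of_pos (by positivity)]
    have : 2 * Real.pi * (1 / (2 * Real.pi)) * V = V := by field_simp
    rw [this]; exact hV)
  have h2 : ∀ u : ℝ, 2 * Real.pi * (1 / (2 * Real.pi)) * u = u := by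
    intro u; field_simp
  simp only [h2] at h1
  exact h1

/-- `K₀` -/
noncomputable def K0 (C : ℝ) : ℕ := ⌊88 * C ^ 3⌋₊ + 1

lemma K0_gt (C : ℝ) : 88 * C ^ 3 < K0 C := by
  unfold K0
  push_cast
  exact Nat.lt_floor_add_one _

lemma K0_pos (C : ℝ) : 1 ≤ K0 C := by unfold K0; omega

/-- the gap -/
lemma gap {Γ : Finset ℝ} {T ℓ C : ℝ} (hD : Dat Γ T ℓ C) (s : ℝ) (hs1 : 1 ≤ s * T)
    (hs2 : 2 * K0 C * s ≤ ℓ) : (Γ.card : ℝ) ^ 2 / (4 * (K0 C : ℝ) ^ 2) ≤ Dd Γ s := by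
  by_contra hcon
  push Not at hcon
  have hl0 : 0 < ℓ := by linarith [hD.hl]
  have hT0 : 0 < T := by linarith [hD.hT]
  have hC0 : 0 < C := by linarith [hD.hC]
  have hK1 : (1 : ℝ) ≤ K0 C := by exact_mod_cast K0_pos C
  have hK0 : (0 : ℝ) < K0 C := by linarith
  have hs0 : 0 < s := by
    by_contra h
    push Not at h
    have : s * T ≤ 0 := mul_nonpos_of_nonpos_of_nonneg h hT0.le
    linarith
  have hn : T * ℓ / C ≤ Γ.card := by rw [div_le_iff₀ hC0]; linarith [hD.low]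
  have hn0 : 0 < (Γ.card : ℝ) := lt_of_lt_of_le (by positivity) hn
  obtain ⟨K, hK⟩ : ∃ K : ℕ, K = K0 C := ⟨_, rfl⟩
  rw [← hK] at hcon hs2 hK1 hK0
  have hcont := gsq_cont Γ
  -- large values near the multiples
  have hlarge : ∀ k : ℕ, 1 ≤ k → k ≤ K → ∀ t : ℝ, |t - k * s| ≤ 1 / (2 * T) →
      (Γ.card : ℝ) ^ 2 / 2 ≤ ‖G Γ t‖ ^ 2 := by
    intro k hk1 hk2 t ht
    have h1 := Dd_add Γ (k * s) (t - k * s)
    rw [show (k : ℝ) * s + (t - k * s) = t by ring] at h1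
    have h2 := Dd_mul Γ k s
    have h3 := Dd_le hD (t - k * s)
    have hk : (k : ℝ) ≤ K := by exact_mod_cast hk2
    have h4 : (k : ℝ) ^ 2 * Dd Γ s ≤ (Γ.card : ℝ) ^ 2 / 4 := by
      calc (k : ℝ) ^ 2 * Dd Γ s ≤ (K : ℝ) ^ 2 * ((Γ.card : ℝ) ^ 2 / (4 * (K : ℝ) ^ 2)) := by
            have := Dd_nonneg Γ s
            gcongr
        _ = (Γ.card : ℝ) ^ 2 / 4 := by field_simp
    have h5 : (t - k * s) ^ 2 * T ^ 2 ≤ 1 / 4 := by
      have e1 : |t - k * s| * T ≤ 1 / 2 := by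
        calc |t - k * s| * T ≤ 1 / (2 * T) * T := by gcongr
          _ = 1 / 2 := by field_simp
      have e2 : (|t - k * s| * T) ^ 2 ≤ (1 / 2) ^ 2 := pow_le_pow_left₀ (by positivity) e1 2
      rw [mul_pow, sq_abs] at e2
      linarith
    have h6 : Dd Γ (t - k * s) ≤ 1 / 4 * (Γ.card : ℝ) ^ 2 := by
      refine h3.trans ?_
      gcongr
    rw [G_sq]
    linarith
  have hint : ∀ a b : ℝ, IntervalIntegrable (fun v : ℝ => ‖G Γ v‖ ^ 2) volume a b :=
    fun a b => hcont.intervalIntegrable a b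
  have hpiece : ∀ k : ℕ, 1 ≤ k → k ≤ K →
      (Γ.card : ℝ) ^ 2 / (2 * T) ≤ ∫ v in (k * s - s / 2)..(k * s + s / 2), ‖G Γ v‖ ^ 2 := by
    intro k hk1 hk2
    have hTs : 1 / (2 * T) ≤ s / 2 := by
      rw [div_le_div_iff₀ (by positivity) (by norm_num)]
      nlinarith
    have h1 : ∫ v in (k * s - 1 / (2 * T))..(k * s + 1 / (2 * T)), ‖G Γ v‖ ^ 2 ≤
        ∫ v in (k * s - s / 2)..(k * s + s / 2), ‖G Γ v‖ ^ 2 := by
      apply intervalIntegral.integral_mono_interval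
      · linarith
      · have : 0 < 1 / (2 * T) := by positivity
        linarith
      · linarith
      · exact Filter.Eventually.of_forall fun v => by positivity
      · exact hint _ _
    refine le_trans ?_ h1
    have h2 : ∫ _v in (k * s - 1 / (2 * T))..(k * s + 1 / (2 * T)), (Γ.card : ℝ) ^ 2 / 2 ≤
        ∫ v in (k * s - 1 / (2 * T))..(k * s + 1 / (2 * T)), ‖G Γ v‖ ^ 2 := by
      apply intervalIntegral.integral_mono_on
      · have : 0 < 1 / (2 * T) := by positivity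
        linarith
      · exact intervalIntegrable_const
      · exact hint _ _
      · intro v hv
        apply hlarge k hk1 hk2
        rw [abs_le]
        constructor <;> linarith [hv.1, hv.2]
    rw [intervalIntegral.integral_const, smul_eq_mul] at h2
    refine le_trans (le_of_eq ?_) h2
    field_simp
    ring
  have hsum : (K : ℝ) * ((Γ.card : ℝ) ^ 2 / (2 * T)) ≤ ∫ v in (-ℓ)..ℓ, ‖G Γ v‖ ^ 2 := by
    have h1 := intervalIntegral.sum_integral_adjacent_intervals (μ := volume)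
      (f := fun v : ℝ => ‖G Γ v‖ ^ 2) (a := fun k : ℕ => (k : ℝ) * s + s / 2) (n := K)
      (fun k _ => hint _ _)
    have h2 : ∀ k ∈ Finset.range K, (Γ.card : ℝ) ^ 2 / (2 * T) ≤
        ∫ v in ((k : ℝ) * s + s / 2)..(((k + 1 : ℕ) : ℝ) * s + s / 2), ‖G Γ v‖ ^ 2 := by
      intro k hk
      rw [Finset.mem_range] at hk
      have h3 := hpiece (k + 1) (by omega) (by omega)
      have h4 : ((k + 1 : ℕ) : ℝ) * s - s / 2 = (k : ℝ) * s + s / 2 := by push_cast; ring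
      rw [h4] at h3
      exact h3
    have h3 := sum_le_sum h2
    rw [sum_const, card_range, nsmul_eq_mul, h1] at h3
    refine h3.trans ?_
    apply intervalIntegral.integral_mono_interval
    · simp only [Nat.cast_zero, zero_mul, zero_add]; linarith
    · simp only [Nat.cast_zero, zero_mul, zero_add]
      have : 0 ≤ (K : ℝ) * s := by positivity
      linarith
    · nlinarith
    · exact Filter.Eventually.of_forall fun v => by positivity
    · exact hint _ _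
  have h1 := hsum.trans (msv hD ℓ le_rfl)
  have h2 : (T * ℓ / C) ^ 2 ≤ (Γ.card : ℝ) ^ 2 := pow_le_pow_left₀ (by positivity) hn 2
  have h3 : (K : ℝ) * ((T * ℓ / C) ^ 2 / (2 * T)) ≤ 44 * ℓ * (C * (T * ℓ)) := by
    refine le_trans ?_ h1
    gcongr
  have h4 : (K : ℝ) * ((T * ℓ / C) ^ 2 / (2 * T)) = (K : ℝ) / (2 * C ^ 2) * (T * ℓ ^ 2) := by
    field_simp
  have h5 : 44 * ℓ * (C * (T * ℓ)) = (44 * C) * (T * ℓ ^ 2) := by ring
  rw [h4, h5] at h3
  have h6 := le_of_mul_le_mul_right h3 (by positivity)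
  rw [div_le_iff₀ (by positivity)] at h6
  have h7 := K0_gt C
  rw [← hK] at h7
  nlinarith

/-- in a short interval the exponential sum is large only near one point -/
lemma peak {Γ : Finset ℝ} {T ℓ C : ℝ} (hD : Dat Γ T ℓ C) (hT : 4 * C ^ 2 ≤ T) (v v₀ : ℝ)
    (h : 2 * K0 C * |v - v₀| ≤ ℓ) (hv : Dd Γ v < (Γ.card : ℝ) ^ 2 / (16 * (K0 C : ℝ) ^ 2))
    (hv₀ : Dd Γ v₀ ≤ Dd Γ v) :
    (v - v₀) ^ 2 * T ^ 2 * (Γ.card : ℝ) ^ 2 / (1600 * C ^ 4) ≤ Dd Γ v := by
  have hC0 : 0 < C := by linarith [hD.hC]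
  have hT0 : 0 < T := by linarith [hD.hT]
  have hK1 : (1 : ℝ) ≤ K0 C := by exact_mod_cast K0_pos C
  have h1 := Dd_sub Γ v v₀
  have h2 : Dd Γ (v - v₀) < (Γ.card : ℝ) ^ 2 / (4 * (K0 C : ℝ) ^ 2) := by
    have e1 : (Γ.card : ℝ) ^ 2 / (4 * (K0 C : ℝ) ^ 2) = 4 * ((Γ.card : ℝ) ^ 2 / (16 * (K0 C : ℝ) ^ 2)) := by
      field_simp; norm_num
    rw [e1]
    linarith
  have h3 : Dd Γ |v - v₀| = Dd Γ (v - v₀) := by
    rcases abs_choice (v - v₀) with h | h
    · rw [h]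
    · rw [h, Dd_neg]
  have h4 : |v - v₀| * T < 1 := by
    by_contra hcon
    push Not at hcon
    have := gap hD |v - v₀| hcon h
    rw [h3] at this
    linarith
  have h5 := Dd_ge hD hT (v - v₀) h4.le
  have h6 : (v - v₀) ^ 2 * T ^ 2 * (Γ.card : ℝ) ^ 2 / (400 * C ^ 4) ≤ 4 * Dd Γ v := by linarith
  rw [div_le_iff₀ (by positivity)] at h6 ⊢
  linarith

end Pool.Agent.L7h52.LO
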