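import Pool.Agent.L7h52.AR.Stm

/-! Project LO: the lower bound, any coefficients. -/

set_option autoImplicit false

open Finset MeasureTheory

namespace Pool.Agent.L7h52.LO

open Pool.Agent.L7h52.AR (Dat cnt)

/-- second moment of a linear form in independent centred variables -/
lemma second2 (Γ : Finset ℝ) (m : ℕ) (r : Fin m → ℝ) (g : ℝ → ℝ) (hg : ∑ x ∈ Γ, g x = 0) :
    ∑ x ∈ Fintype.piFinset (fun _ : Fin m => Γ), (∑ i, r i * g (x i)) ^ 2 =
      (∑ i, r i ^ 2) * ((Γ.card : ℝ) ^ (m - 1) * ∑ x ∈ Γ, g x ^ 2) := by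
  classical
  have h1 : ∀ i j : Fin m, ∑ x ∈ Fintype.piFinset (fun _ : Fin m => Γ), g (x i) * g (x j) =
      if i = j then (Γ.card : ℝ) ^ (m - 1) * ∑ x ∈ Γ, g x ^ 2 else 0 := by
    intro i j
    have h2 : ∀ x : Fin m → ℝ, g (x i) * g (x j) =
        ∏ k, ((if k = i then g (x k) else 1) * (if k = j then g (x k) else 1)) := by
      intro x
      rw [prod_mul_distrib, prod_ite_eq' univ i, prod_ite_eq' univ j]
      simp
    simp only [h2]
    rw [← prod_univ_sum (fun _ : Fin m => Γ)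
      (fun k a => (if k = i then g a else 1) * (if k = j then g a else 1))]
    split_ifs with hij
    · subst hij
      have h3 : ∀ k : Fin m, ∑ a ∈ Γ, (if k = i then g a else 1) * (if k = i then g a else 1) =
          if k = i then ∑ x ∈ Γ, g x ^ 2 else (Γ.card : ℝ) := by
        intro k
        split_ifs
        · exact sum_congr rfl fun a _ => by ring
        · simp
      simp only [h3]
      rw [prod_ite, prod_const, prod_const]
      have h4 : (univ.filter (fun k : Fin m => k = i)).card = 1 := by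
        rw [filter_eq' univ i]; simp
      have h5 : (univ.filter (fun k : Fin m => ¬ k = i)).card = m - 1 := by
        have := Finset.card_filter_add_card_filter_not (s := (univ : Finset (Fin m)))
          (fun k => k = i)
        rw [h4, card_univ, Fintype.card_fin] at this
        omega
      rw [h4, h5, pow_one]
      ring
    · apply prod_eq_zero (mem_univ i)
      have h3 : ∀ a ∈ Γ, (if i = i then g a else 1) * (if i = j then g a else 1) = g a := by
        intro a _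
        rw [if_pos rfl, if_neg hij, mul_one]
      rw [sum_congr rfl h3, hg]
  have h2 : ∀ x : Fin m → ℝ, (∑ i, r i * g (x i)) ^ 2 =
      ∑ i, ∑ j, (r i * r j) * (g (x i) * g (x j)) := by
    intro x
    rw [sq, sum_mul_sum]
    exact sum_congr rfl fun i _ => sum_congr rfl fun j _ => by ring
  simp only [h2]
  rw [sum_comm]
  have h3 : ∀ i : Fin m, ∑ x ∈ Fintype.piFinset (fun _ : Fin m => Γ),
      ∑ j, (r i * r j) * (g (x i) * g (x j)) =
      r i ^ 2 * ((Γ.card : ℝ) ^ (m - 1) * ∑ x ∈ Γ, g x ^ 2) := by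
    intro i
    rw [sum_comm]
    have h4 : ∀ j : Fin m, ∑ x ∈ Fintype.piFinset (fun _ : Fin m => Γ),
        (r i * r j) * (g (x i) * g (x j)) =
        if i = j then r i * r j * ((Γ.card : ℝ) ^ (m - 1) * ∑ x ∈ Γ, g x ^ 2) else 0 := by
      intro j
      rw [← mul_sum, h1]
      split_ifs
      · rfl
      · rw [mul_zero]
    simp only [h4]
    rw [sum_ite_eq univ i]
    simp
    left
    ring
  simp only [h3]
  rw [sum_mul]

/-- the lower bound -/
theorem low2 {Γ : Finset ℝ} {T ℓ C : ℝ} (hD : Dat Γ T ℓ C) (m : ℕ) (r : Fin m → ℝ) (b R : ℝ)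
    (hb : 0 < b) (hbR : b ≤ R) (hR : R ^ 2 = ∑ i, r i ^ 2) :
    ∃ y : ℝ, b * (Γ.card : ℝ) ^ (m - 1) ≤ 6 * C * R *
      (((Fintype.piFinset (fun _ : Fin m => Γ)).filter
        (fun x : Fin m → ℝ => |∑ i, r i * x i - y| * ℓ ≤ b)).card : ℝ) := by
  classical
  have hl : 0 < ℓ := by linarith [hD.hl]
  have hT : 0 < T := by linarith [hD.hT]
  have hC : 0 < C := by linarith [hD.hC]
  have hR0 : 0 < R := by linarith
  have hm : 1 ≤ m := by
    rcases Nat.eq_zero_or_pos m with h | h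
    · subst h
      rw [Fin.sum_univ_zero] at hR
      have : R = 0 := by simpa using hR
      linarith
    · exact h
  have hN1 : 1 ≤ T * ℓ := by nlinarith [hD.hl, hD.hT]
  have hRb : 1 ≤ R / b := by rw [le_div_iff₀ hb]; linarith
  have hn0 : 0 < (Γ.card : ℝ) := by
    by_contra h
    push Not at h
    have := hD.low
    have : C * (Γ.card : ℝ) ≤ 0 := mul_nonpos_of_nonneg_of_nonpos hC.le h
    linarith
  obtain ⟨n, hn⟩ : ∃ n : ℝ, n = Γ.card := ⟨_, rfl⟩
  rw [← hn] at hn0 ⊢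
  obtain ⟨μ, hμ⟩ : ∃ μ : ℝ, μ = (∑ x ∈ Γ, x) / n := ⟨_, rfl⟩
  obtain ⟨g, hg⟩ : ∃ g : ℝ → ℝ, g = fun x => x - μ := ⟨_, rfl⟩
  have hgs : ∑ x ∈ Γ, g x = 0 := by
    rw [hg]
    simp only
    rw [sum_sub_distrib, sum_const, nsmul_eq_mul, ← hn, hμ]
    field_simp
    ring
  have hμ0 : 0 ≤ μ := by
    rw [hμ]
    exact div_nonneg (sum_nonneg fun x hx => (hD.pos x hx).1.le) hn0.le
  have hμT : μ ≤ T := by
    rw [hμ, div_le_iff₀ hn0]
    calc ∑ x ∈ Γ, x ≤ ∑ _x ∈ Γ, T := sum_le_sum fun x hx => (hD.pos x hx).2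
      _ = T * n := by rw [sum_const, nsmul_eq_mul, hn]; ring
  have hg2 : ∀ x ∈ Γ, g x ^ 2 ≤ T ^ 2 := by
    intro x hx
    have := hD.pos x hx
    rw [hg]
    apply sq_le_sq' <;> simp only <;> linarith
  set A := Fintype.piFinset (fun _ : Fin m => Γ) with hA
  have hAcard : (A.card : ℝ) = n ^ m := by
    rw [hA, Fintype.card_piFinset, prod_const, card_univ, Fintype.card_fin, hn]
    push_cast
    rfl
  have hpow : n ^ m = n ^ (m - 1) * n := by rw [← pow_succ]; congr 1; omega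
  have hsec := second2 Γ m r g hgs
  have hsec2 : ∑ x ∈ A, (∑ i, r i * g (x i)) ^ 2 ≤ R ^ 2 * (n ^ m * T ^ 2) := by
    rw [hsec, ← hn, ← hR]
    have : ∑ x ∈ Γ, g x ^ 2 ≤ n * T ^ 2 := by
      calc ∑ x ∈ Γ, g x ^ 2 ≤ ∑ _x ∈ Γ, T ^ 2 := sum_le_sum hg2
        _ = n * T ^ 2 := by rw [sum_const, nsmul_eq_mul, hn]
    calc R ^ 2 * (n ^ (m - 1) * ∑ x ∈ Γ, g x ^ 2) ≤ R ^ 2 * (n ^ (m - 1) * (n * T ^ 2)) := by gcongr
      _ = R ^ 2 * (n ^ m * T ^ 2) := by rw [hpow]; ring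
  set A1 := A.filter (fun x => |∑ i, r i * g (x i)| ≤ 2 * T * R) with hA1
  set A2 := A.filter (fun x => ¬ |∑ i, r i * g (x i)| ≤ 2 * T * R) with hA2
  have hA12 : (A1.card : ℝ) + A2.card = n ^ m := by
    rw [← hAcard]
    have := Finset.card_filter_add_card_filter_not (s := A)
      (fun x : Fin m → ℝ => |∑ i, r i * g (x i)| ≤ 2 * T * R)
    exact_mod_cast this
  have hA2c : (A2.card : ℝ) ≤ n ^ m / 4 := by
    have h1 : (A2.card : ℝ) * (4 * T ^ 2 * R ^ 2) ≤ R ^ 2 * (n ^ m * T ^ 2) := by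
      refine le_trans ?_ hsec2
      calc (A2.card : ℝ) * (4 * T ^ 2 * R ^ 2) = ∑ _x ∈ A2, 4 * T ^ 2 * R ^ 2 := by
            rw [sum_const, nsmul_eq_mul]
        _ ≤ ∑ x ∈ A2, (∑ i, r i * g (x i)) ^ 2 := by
            refine sum_le_sum fun x hx => ?_
            rw [hA2, mem_filter, not_le] at hx
            have h2 : (2 * T * R) ^ 2 ≤ |∑ i, r i * g (x i)| ^ 2 :=
              pow_le_pow_left₀ (by positivity) hx.2.le 2
            rw [sq_abs] at h2
            refine le_trans (le_of_eq ?_) h2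
            ring
        _ ≤ ∑ x ∈ A, (∑ i, r i * g (x i)) ^ 2 :=
            sum_le_sum_of_subset_of_nonneg (filter_subset _ _) fun _ _ _ => sq_nonneg _
    have h2 : (A2.card : ℝ) * (4 * T ^ 2 * R ^ 2) ≤ n ^ m / 4 * (4 * T ^ 2 * R ^ 2) := by
      refine h1.trans (le_of_eq ?_)
      ring
    exact le_of_mul_le_mul_right h2 (by positivity)
  -- the windows
  set f : (Fin m → ℝ) → ℝ := fun x => (∑ i, r i * x i) * ℓ / (2 * b) with hf
  obtain ⟨M, hM⟩ : ∃ M : ℝ, M = (∑ i, r i) * μ := ⟨_, rfl⟩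
  obtain ⟨lo, hlo⟩ : ∃ lo : ℝ, lo = (M - 2 * T * R) * ℓ / (2 * b) := ⟨_, rfl⟩
  obtain ⟨hi, hhi⟩ : ∃ hi : ℝ, hi = (M + 2 * T * R) * ℓ / (2 * b) := ⟨_, rfl⟩
  have hlohi : hi = lo + 2 * (T * ℓ) * (R / b) := by rw [hhi, hlo]; field_simp; ring
  have hpos : 0 < (T * ℓ) * (R / b) := by positivity
  have hfA : ∀ x ∈ A1, lo ≤ f x ∧ f x ≤ hi := by
    intro x hx
    have h1 := (mem_filter.1 hx).2
    have h2 : ∑ i, r i * g (x i) = ∑ i, r i * x i - M := by
      rw [hg, hM]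
      simp only
      rw [sum_mul, ← sum_sub_distrib]
      exact sum_congr rfl fun i _ => by ring
    rw [h2, abs_le] at h1
    rw [hlo, hhi, hf]
    simp only
    constructor
    · apply div_le_div_of_nonneg_right _ (by positivity)
      apply mul_le_mul_of_nonneg_right _ hl.le
      linarith
    · apply div_le_div_of_nonneg_right _ (by positivity)
      apply mul_le_mul_of_nonneg_right _ hl.le
      linarith
  set I := Finset.Icc ⌊lo⌋ ⌊hi⌋ with hI
  have hfl : ⌊lo⌋ ≤ ⌊hi⌋ := Int.floor_le_floor (by rw [hlohi]; linarith)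
  have hIcard : (I.card : ℝ) ≤ 4 * (T * ℓ) * (R / b) := by
    rw [hI, Int.card_Icc]
    have h2 : (((⌊hi⌋ + 1 - ⌊lo⌋).toNat : ℕ) : ℝ) = ((⌊hi⌋ + 1 - ⌊lo⌋ : ℤ) : ℝ) := by
      have : (((⌊hi⌋ + 1 - ⌊lo⌋).toNat : ℕ) : ℤ) = ⌊hi⌋ + 1 - ⌊lo⌋ := Int.toNat_of_nonneg (by omega)
      exact_mod_cast this
    rw [h2]
    push_cast
    have h3 := Int.floor_le hi
    have h4 := Int.lt_floor_add_one lo
    have h5 : 1 ≤ (T * ℓ) * (R / b) := by nlinarith
    linarith
  have hmaps : ∀ x ∈ A1, ⌊f x⌋ ∈ I := by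
    intro x hx
    have h1 := hfA x hx
    rw [hI, Finset.mem_Icc]
    exact ⟨Int.floor_le_floor h1.1, Int.floor_le_floor h1.2⟩
  have hIne : I.Nonempty := by rw [hI, Finset.nonempty_Icc]; exact hfl
  obtain ⟨k, hk, hkmax⟩ := I.exists_max_image
    (fun k => ((A1.filter (fun x => ⌊f x⌋ = k)).card : ℝ)) hIne
  have hsum : (A1.card : ℝ) = ∑ k ∈ I, ((A1.filter (fun x => ⌊f x⌋ = k)).card : ℝ) := by
    rw [card_eq_sum_card_fiberwise hmaps]
    push_cast
    rfl
  refine ⟨b * (2 * k + 1) / ℓ, ?_⟩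
  obtain ⟨c, hc⟩ : ∃ c : ℝ, c = ((A.filter
      (fun x : Fin m → ℝ => |∑ i, r i * x i - b * (2 * k + 1) / ℓ| * ℓ ≤ b)).card : ℝ) := ⟨_, rfl⟩
  rw [← hc]
  have h2 : ((A1.filter (fun x => ⌊f x⌋ = k)).card : ℝ) ≤ c := by
    rw [hc]
    refine Nat.cast_le.2 (card_le_card ?_)
    intro x hx
    rw [mem_filter] at hx ⊢
    refine ⟨(mem_filter.1 hx.1).1, ?_⟩
    have h3 : |∑ i, r i * x i - b * (2 * k + 1) / ℓ| * ℓ = b * |2 * f x - (2 * k + 1)| := by
      have e1 : ∑ i, r i * x i = f x * (2 * b) / ℓ := by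
        rw [hf]; field_simp
      have e2 : ∑ i, r i * x i - b * (2 * k + 1) / ℓ = (b / ℓ) * (2 * f x - (2 * k + 1)) := by
        rw [e1]; field_simp
      rw [e2, abs_mul, abs_of_pos (by positivity : 0 < b / ℓ)]
      field_simp
    have h6 : |2 * f x - (2 * k + 1)| ≤ 1 := by
      rw [abs_le]
      have h4 := Int.floor_le (f x)
      have h5 := Int.lt_floor_add_one (f x)
      rw [hx.2] at h4 h5
      constructor <;> linarith
    rw [h3]
    nlinarith
  have hc0 : 0 ≤ c := by rw [hc]; exact Nat.cast_nonneg _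
  have h1 : (A1.card : ℝ) ≤ 4 * (T * ℓ) * (R / b) * c := by
    rw [hsum]
    calc _ ≤ ∑ _k' ∈ I, ((A1.filter (fun x => ⌊f x⌋ = k)).card : ℝ) :=
          sum_le_sum fun k' hk' => hkmax k' hk'
      _ = I.card * ((A1.filter (fun x => ⌊f x⌋ = k)).card : ℝ) := by rw [sum_const, nsmul_eq_mul]
      _ ≤ 4 * (T * ℓ) * (R / b) * c := mul_le_mul hIcard h2 (Nat.cast_nonneg _) (by positivity)
  have h3 : 3 / 4 * n ^ m ≤ 4 * (T * ℓ) * (R / b) * c := by linarith
  have h4 : T * ℓ ≤ C * n := by rw [hn]; exact hD.low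
  have h5 : (b * n ^ (m - 1)) * n ≤ (6 * C * R * c) * n := by
    have e1 : n ^ m ≤ 6 * ((C * n) * (R / b * c)) := by
      calc n ^ m ≤ 16 / 3 * ((T * ℓ) * (R / b * c)) := by linarith
        _ ≤ 16 / 3 * ((C * n) * (R / b * c)) := by gcongr
        _ ≤ 6 * ((C * n) * (R / b * c)) := by
            have : 0 ≤ (C * n) * (R / b * c) := by positivity
            linarith
    calc (b * n ^ (m - 1)) * n = b * n ^ m := by rw [hpow]; ring
      _ ≤ b * (6 * ((C * n) * (R / b * c))) := by gcongr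
      _ = _ := by field_simp
  exact le_of_mul_le_mul_right h5 hn0

end Pool.Agent.L7h52.LO
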