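import Pool.Agent.L7h52.LO.Gap

/-! Project LO: the moments of high order. -/

set_option autoImplicit false

open Finset MeasureTheory

namespace Pool.Agent.L7h52.LO

open Pool.Agent.L7h52.AR (G Dat cnt G_cont G_le G_eq msq G_abs G_neg)

/-- a Gaussian integral over an interval -/
lemma gauss_le (b v₀ x y : ℝ) (hb : 0 < b) (hxy : x ≤ y) :
    ∫ v in x..y, Real.exp (-b * (v - v₀) ^ 2) ≤ Real.sqrt (Real.pi / b) := by
  have h1 : ∫ v in x..y, Real.exp (-b * (v - v₀) ^ 2) =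
      ∫ v in (x - v₀)..(y - v₀), Real.exp (-b * v ^ 2) :=
    intervalIntegral.integral_comp_sub_right (fun v => Real.exp (-b * v ^ 2)) v₀
  rw [h1, ← integral_gaussian b, intervalIntegral.integral_of_le (by linarith)]
  apply setIntegral_le_integral
  · exact integrable_exp_neg_mul_sq hb
  · exact Filter.Eventually.of_forall fun v => (Real.exp_pos _).le

/-- the factor away from the peaks -/
noncomputable def qq (C : ℝ) : ℝ := 1 - 1 / (64 * (K0 C : ℝ) ^ 2)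

lemma qq_nonneg (C : ℝ) : 0 ≤ qq C := by
  unfold qq
  have hK1 : (1 : ℝ) ≤ K0 C := by exact_mod_cast K0_pos C
  have : 1 / (64 * (K0 C : ℝ) ^ 2) ≤ 1 := by
    rw [div_le_one (by positivity)]
    nlinarith
  linarith

lemma qq_sq (C : ℝ) : 1 - 1 / (32 * (K0 C : ℝ) ^ 2) ≤ qq C ^ 2 := by
  unfold qq
  have hK1 : (1 : ℝ) ≤ K0 C := by exact_mod_cast K0_pos C
  have h1 : 1 / (32 * (K0 C : ℝ) ^ 2) = 2 * (1 / (64 * (K0 C : ℝ) ^ 2)) := by field_simp; norm_num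
  rw [h1]
  nlinarith [sq_nonneg (1 / (64 * (K0 C : ℝ) ^ 2))]

lemma qq_pow (C : ℝ) (m : ℕ) (hm : 2 ≤ m) : qq C ^ (m - 2) ≤ 64 * (K0 C : ℝ) ^ 2 / Real.sqrt m := by
  have hK1 : (1 : ℝ) ≤ K0 C := by exact_mod_cast K0_pos C
  have hm0 : (0 : ℝ) < m := by exact_mod_cast (by omega : 0 < m)
  have hm1 : (1 : ℝ) ≤ m := by exact_mod_cast (by omega : 1 ≤ m)
  obtain ⟨θ, hθ⟩ : ∃ θ : ℝ, θ = 1 / (64 * (K0 C : ℝ) ^ 2) := ⟨_, rfl⟩
  have hθ0 : 0 < θ := by rw [hθ]; positivity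
  have hq : qq C = 1 - θ := by rw [hθ]; rfl
  have hq0 := qq_nonneg C
  have h1 : (1 - θ) ^ (m - 2) * (1 + θ) ^ (m - 2) ≤ 1 := by
    rw [← mul_pow]
    apply pow_le_one₀
    · rw [← hq]; positivity
    · nlinarith
  have h2 : 1 + ((m - 2 : ℕ) : ℝ) * θ ≤ (1 + θ) ^ (m - 2) :=
    one_add_mul_le_pow (by linarith) (m - 2)
  have h3 : θ * m ≤ 1 + ((m - 2 : ℕ) : ℝ) * θ := by
    rw [Nat.cast_sub hm]
    push_cast
    have : 2 * θ ≤ 1 := by
      rw [hθ, mul_one_div, div_le_one (by positivity)]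
      nlinarith
    nlinarith
  have h4 : (1 - θ) ^ (m - 2) * (θ * m) ≤ 1 := by
    refine le_trans ?_ h1
    have : 0 ≤ (1 - θ) ^ (m - 2) := by rw [← hq]; positivity
    gcongr
    exact h3.trans h2
  rw [hq]
  have h5 : (1 - θ) ^ (m - 2) ≤ 1 / (θ * m) := by
    rw [le_div_iff₀ (by positivity)]; exact h4
  refine h5.trans ?_
  have h6 : 1 / (θ * m) = 64 * (K0 C : ℝ) ^ 2 / m := by rw [hθ]; field_simp
  rw [h6]
  apply div_le_div_of_nonneg_left (by positivity) (Real.sqrt_pos.2 hm0)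
  rw [Real.sqrt_le_left (by linarith)]
  nlinarith

/-- one window -/
lemma window {Γ : Finset ℝ} {T ℓ C : ℝ} (hD : Dat Γ T ℓ C) (hT : 4 * C ^ 2 ≤ T) (m : ℕ) (hm : 2 ≤ m)
    (a : ℝ) : ∫ v in a..(a + ℓ / (2 * K0 C)), ‖G Γ v‖ ^ m ≤
      (Γ.card : ℝ) ^ m * (160 * C ^ 2 / (T * Real.sqrt m)) +
        (qq C * Γ.card) ^ (m - 2) * ∫ v in a..(a + ℓ / (2 * K0 C)), ‖G Γ v‖ ^ 2 := by
  have hl0 : 0 < ℓ := by linarith [hD.hl]
  have hT0 : 0 < T := by linarith [hD.hT]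
  have hC0 : 0 < C := by linarith [hD.hC]
  have hK1 : (1 : ℝ) ≤ K0 C := by exact_mod_cast K0_pos C
  have hK0 : (0 : ℝ) < K0 C := by linarith
  have hm0 : (0 : ℝ) < m := by exact_mod_cast (by omega : 0 < m)
  have hsm : 0 < Real.sqrt m := Real.sqrt_pos.2 hm0
  obtain ⟨c, hc⟩ : ∃ c : ℝ, c = ℓ / (2 * K0 C) := ⟨_, rfl⟩
  have hc0 : 0 < c := by rw [hc]; positivity
  rw [← hc]
  have hGc := G_cont Γ
  obtain ⟨v₀, hv₀, hmin⟩ := (isCompact_Icc (a := a) (b := a + c)).exists_isMinOn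
    ⟨a, Set.left_mem_Icc.2 (by linarith)⟩ (Dd_cont Γ).continuousOn
  obtain ⟨b, hb⟩ : ∃ b : ℝ, b = m * T ^ 2 / (6400 * C ^ 4) := ⟨_, rfl⟩
  have hb0 : 0 < b := by rw [hb]; positivity
  have hn0 : 0 ≤ (Γ.card : ℝ) := Nat.cast_nonneg _
  have hq0 := qq_nonneg C
  have hpt : ∀ v ∈ Set.Icc a (a + c), ‖G Γ v‖ ^ m ≤
      (Γ.card : ℝ) ^ m * Real.exp (-b * (v - v₀) ^ 2) + (qq C * Γ.card) ^ (m - 2) * ‖G Γ v‖ ^ 2 := by
    intro v hv
    have hGn := norm_nonneg (G Γ v)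
    rcases le_or_gt ((Γ.card : ℝ) ^ 2 / (16 * (K0 C : ℝ) ^ 2)) (Dd Γ v) with h | h
    · have h1 : ‖G Γ v‖ ≤ qq C * Γ.card := by
        have e1 : ‖G Γ v‖ ^ 2 ≤ (qq C * Γ.card) ^ 2 := by
          rw [G_sq, mul_pow]
          have e2 := qq_sq C
          calc (Γ.card : ℝ) ^ 2 - Dd Γ v / 2 ≤
              (Γ.card : ℝ) ^ 2 - (Γ.card : ℝ) ^ 2 / (16 * (K0 C : ℝ) ^ 2) / 2 := by linarith
            _ = (1 - 1 / (32 * (K0 C : ℝ) ^ 2)) * (Γ.card : ℝ) ^ 2 := by field_simp; ring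
            _ ≤ _ := by gcongr
        exact le_of_sq_le_sq e1 (by positivity)
      have h2 : ‖G Γ v‖ ^ m = ‖G Γ v‖ ^ (m - 2) * ‖G Γ v‖ ^ 2 := by
        rw [← pow_add]; congr 1; omega
      rw [h2]
      have h3 : ‖G Γ v‖ ^ (m - 2) ≤ (qq C * Γ.card) ^ (m - 2) := pow_le_pow_left₀ hGn h1 _
      have h4 : 0 ≤ (Γ.card : ℝ) ^ m * Real.exp (-b * (v - v₀) ^ 2) := by positivity
      have h5 : ‖G Γ v‖ ^ (m - 2) * ‖G Γ v‖ ^ 2 ≤ (qq C * Γ.card) ^ (m - 2) * ‖G Γ v‖ ^ 2 := by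
        gcongr
      linarith
    · have h1 : 2 * K0 C * |v - v₀| ≤ ℓ := by
        have e1 : |v - v₀| ≤ c := by
          rw [abs_le]; constructor <;> linarith [hv.1, hv.2, hv₀.1, hv₀.2]
        calc 2 * K0 C * |v - v₀| ≤ 2 * K0 C * c := by gcongr
          _ = ℓ := by rw [hc]; field_simp
      have h2 := peak hD hT v v₀ h1 h (hmin hv)
      obtain ⟨x, hx⟩ : ∃ x : ℝ, x = (v - v₀) ^ 2 * T ^ 2 / (3200 * C ^ 4) := ⟨_, rfl⟩
      have h3 : ‖G Γ v‖ ≤ Γ.card * Real.exp (-x / 2) := by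
        have e1 : ‖G Γ v‖ ^ 2 ≤ (Γ.card * Real.exp (-x / 2)) ^ 2 := by
          rw [G_sq, mul_pow, ← Real.exp_nat_mul]
          have e2 : ((2 : ℕ) : ℝ) * (-x / 2) = -x := by push_cast; ring
          rw [e2]
          have e3 := Real.one_sub_le_exp_neg x
          calc (Γ.card : ℝ) ^ 2 - Dd Γ v / 2 ≤
              (Γ.card : ℝ) ^ 2 - (v - v₀) ^ 2 * T ^ 2 * (Γ.card : ℝ) ^ 2 / (1600 * C ^ 4) / 2 := by
                linarith
            _ = (Γ.card : ℝ) ^ 2 * (1 - x) := by rw [hx]; field_simp; ring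
            _ ≤ (Γ.card : ℝ) ^ 2 * Real.exp (-x) := by gcongr
        exact le_of_sq_le_sq e1 (by positivity)
      have h4 : ‖G Γ v‖ ^ m ≤ (Γ.card : ℝ) ^ m * Real.exp (-b * (v - v₀) ^ 2) := by
        refine (pow_le_pow_left₀ hGn h3 m).trans (le_of_eq ?_)
        rw [mul_pow, ← Real.exp_nat_mul]
        congr 2
        rw [hb, hx]
        field_simp
        ring
      have h5 : 0 ≤ (qq C * Γ.card) ^ (m - 2) * ‖G Γ v‖ ^ 2 := by positivity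
      linarith
  have hc1 : Continuous (fun v : ℝ => (Γ.card : ℝ) ^ m * Real.exp (-b * (v - v₀) ^ 2)) := by fun_prop
  have hc2 : Continuous (fun v : ℝ => (qq C * Γ.card) ^ (m - 2) * ‖G Γ v‖ ^ 2) := by fun_prop
  have hint : ∫ v in a..(a + c), ‖G Γ v‖ ^ m ≤ ∫ v in a..(a + c),
      ((Γ.card : ℝ) ^ m * Real.exp (-b * (v - v₀) ^ 2) + (qq C * Γ.card) ^ (m - 2) * ‖G Γ v‖ ^ 2) := by
    apply intervalIntegral.integral_mono_on (by linarith)
    · exact Continuous.intervalIntegrable (by fun_prop) _ _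
    · exact (hc1.add hc2).intervalIntegrable _ _
    · exact hpt
  rw [intervalIntegral.integral_add (hc1.intervalIntegrable _ _) (hc2.intervalIntegrable _ _),
    intervalIntegral.integral_const_mul, intervalIntegral.integral_const_mul] at hint
  have h1 := gauss_le b v₀ a (a + c) hb0 (by linarith)
  have h2 : Real.sqrt (Real.pi / b) ≤ 160 * C ^ 2 / (T * Real.sqrt m) := by
    rw [Real.sqrt_le_left (by positivity)]
    have e1 : (160 * C ^ 2 / (T * Real.sqrt m)) ^ 2 = 25600 * C ^ 4 / (T ^ 2 * m) := by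
      rw [div_pow, mul_pow, mul_pow, Real.sq_sqrt hm0.le]
      ring
    rw [e1, hb]
    have e2 : Real.pi / (m * T ^ 2 / (6400 * C ^ 4)) = 6400 * Real.pi * C ^ 4 / (T ^ 2 * m) := by
      field_simp
    rw [e2]
    apply div_le_div_of_nonneg_right _ (by positivity)
    have := Real.pi_lt_four
    have : 0 < C ^ 4 := by positivity
    nlinarith
  have h3 : (Γ.card : ℝ) ^ m * ∫ v in a..(a + c), Real.exp (-b * (v - v₀) ^ 2) ≤
      (Γ.card : ℝ) ^ m * (160 * C ^ 2 / (T * Real.sqrt m)) := by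
    apply mul_le_mul_of_nonneg_left (h1.trans h2) (by positivity)
  linarith

/-- the constant -/
noncomputable def C5 (C : ℝ) : ℝ := (2 * K0 C + 1) * (160 * C ^ 2) + 5632 * (K0 C : ℝ) ^ 2 * C ^ 3

lemma C5_nonneg (C : ℝ) (hC : 0 ≤ C) : 0 ≤ C5 C := by unfold C5; positivity

/-- the moments -/
theorem moment {Γ : Finset ℝ} {T ℓ C : ℝ} (hD : Dat Γ T ℓ C) (hT : 4 * C ^ 2 ≤ T) (m : ℕ)
    (hm : 2 ≤ m) (V : ℝ) (hV : ℓ ≤ V) :
    ∫ v in (0 : ℝ)..V, ‖G Γ v‖ ^ m ≤ C5 C * (V / (T * ℓ)) * ((Γ.card : ℝ) ^ m / Real.sqrt m) := by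
  have hl0 : 0 < ℓ := by linarith [hD.hl]
  have hT0 : 0 < T := by linarith [hD.hT]
  have hC0 : 0 < C := by linarith [hD.hC]
  have hV0 : 0 < V := by linarith
  have hK1 : (1 : ℝ) ≤ K0 C := by exact_mod_cast K0_pos C
  have hK0 : (0 : ℝ) < K0 C := by linarith
  have hm0 : (0 : ℝ) < m := by exact_mod_cast (by omega : 0 < m)
  have hsm : 0 < Real.sqrt m := Real.sqrt_pos.2 hm0
  have hq0 := qq_nonneg C
  have hGc := G_cont Γ
  obtain ⟨c, hc⟩ : ∃ c : ℝ, c = ℓ / (2 * K0 C) := ⟨_, rfl⟩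
  have hc0 : 0 < c := by rw [hc]; positivity
  have hcV : c ≤ V := by
    refine le_trans ?_ hV
    rw [hc, div_le_iff₀ (by positivity)]
    nlinarith
  obtain ⟨J, hJ⟩ : ∃ J : ℕ, J = ⌈V / c⌉₊ := ⟨_, rfl⟩
  have hJ1 : V ≤ J * c := by
    have := Nat.le_ceil (V / c)
    rw [← hJ] at this
    rwa [div_le_iff₀ hc0] at this
  have hJ2 : (J : ℝ) ≤ V / c + 1 := by
    rw [hJ]; exact (Nat.ceil_lt_add_one (by positivity)).le
  have hJ3 : (J : ℝ) * c ≤ 2 * V := by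
    calc (J : ℝ) * c ≤ (V / c + 1) * c := by gcongr
      _ = V + c := by field_simp
      _ ≤ 2 * V := by linarith
  have hint : ∀ (p : ℕ) (a b : ℝ), IntervalIntegrable (fun v : ℝ => ‖G Γ v‖ ^ p) volume a b :=
    fun p a b => Continuous.intervalIntegrable (by fun_prop) a b
  have hadj : ∀ p : ℕ, ∑ j ∈ Finset.range J, ∫ v in ((j : ℝ) * c)..((j : ℝ) * c + c), ‖G Γ v‖ ^ p =
      ∫ v in (0 : ℝ)..(J * c), ‖G Γ v‖ ^ p := by
    intro p
    have h1 := intervalIntegral.sum_integral_adjacent_intervals (μ := volume)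
      (f := fun v : ℝ => ‖G Γ v‖ ^ p) (a := fun j : ℕ => (j : ℝ) * c) (n := J)
      (fun k _ => hint p _ _)
    simp only [Nat.cast_zero, zero_mul] at h1
    rw [← h1]
    refine sum_congr rfl fun j _ => ?_
    have : ((j + 1 : ℕ) : ℝ) * c = (j : ℝ) * c + c := by push_cast; ring
    rw [this]
  have h1 : ∫ v in (0 : ℝ)..V, ‖G Γ v‖ ^ m ≤ ∫ v in (0 : ℝ)..(J * c), ‖G Γ v‖ ^ m := by
    apply intervalIntegral.integral_mono_interval le_rfl hV0.le hJ1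
    · exact Filter.Eventually.of_forall fun v => by positivity
    · exact hint m _ _
  have h2 : ∫ v in (0 : ℝ)..(J * c), ‖G Γ v‖ ^ m ≤
      J * ((Γ.card : ℝ) ^ m * (160 * C ^ 2 / (T * Real.sqrt m))) +
      (qq C * Γ.card) ^ (m - 2) * ∫ v in (0 : ℝ)..(J * c), ‖G Γ v‖ ^ 2 := by
    rw [← hadj m, ← hadj 2, mul_sum]
    have e1 : (J : ℝ) * ((Γ.card : ℝ) ^ m * (160 * C ^ 2 / (T * Real.sqrt m))) =
        ∑ _j ∈ Finset.range J, (Γ.card : ℝ) ^ m * (160 * C ^ 2 / (T * Real.sqrt m)) := by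
      rw [sum_const, card_range, nsmul_eq_mul]
    rw [e1, ← sum_add_distrib]
    refine sum_le_sum fun j _ => ?_
    have := window hD hT m hm ((j : ℝ) * c)
    rw [← hc] at this
    exact this
  have h3 : ∫ v in (0 : ℝ)..(J * c), ‖G Γ v‖ ^ 2 ≤ 88 * V * (C * (T * ℓ)) := by
    have e1 := msv hD (2 * V) (by linarith)
    refine le_trans ?_ (e1.trans (le_of_eq (by ring)))
    apply intervalIntegral.integral_mono_interval
    · linarith
    · positivity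
    · exact hJ3
    · exact Filter.Eventually.of_forall fun v => by positivity
    · exact hint 2 _ _
  have h4 : (J : ℝ) ≤ (2 * K0 C + 1) * (V / ℓ) := by
    refine hJ2.trans ?_
    have e1 : V / c = 2 * K0 C * (V / ℓ) := by rw [hc]; field_simp
    have e2 : 1 ≤ V / ℓ := by rw [le_div_iff₀ hl0]; linarith
    rw [e1]
    linarith
  have h5 : (J : ℝ) * ((Γ.card : ℝ) ^ m * (160 * C ^ 2 / (T * Real.sqrt m))) ≤
      (2 * K0 C + 1) * (160 * C ^ 2) * (V / (T * ℓ)) * ((Γ.card : ℝ) ^ m / Real.sqrt m) := by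
    calc (J : ℝ) * ((Γ.card : ℝ) ^ m * (160 * C ^ 2 / (T * Real.sqrt m))) ≤
        ((2 * K0 C + 1) * (V / ℓ)) * ((Γ.card : ℝ) ^ m * (160 * C ^ 2 / (T * Real.sqrt m))) := by
          gcongr
      _ = _ := by field_simp
  have h6 : (qq C * Γ.card) ^ (m - 2) * ∫ v in (0 : ℝ)..(J * c), ‖G Γ v‖ ^ 2 ≤
      5632 * (K0 C : ℝ) ^ 2 * C ^ 3 * (V / (T * ℓ)) * ((Γ.card : ℝ) ^ m / Real.sqrt m) := by
    have e1 : (Γ.card : ℝ) ^ m = (Γ.card : ℝ) ^ (m - 2) * (Γ.card : ℝ) ^ 2 := by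
      rw [← pow_add]; congr 1; omega
    have e2 : (T * ℓ) ^ 2 ≤ C ^ 2 * (Γ.card : ℝ) ^ 2 := by
      rw [← mul_pow]
      exact pow_le_pow_left₀ (by positivity) hD.low 2
    have e3 := qq_pow C m hm
    calc (qq C * Γ.card) ^ (m - 2) * ∫ v in (0 : ℝ)..(J * c), ‖G Γ v‖ ^ 2 ≤
        (qq C * Γ.card) ^ (m - 2) * (88 * V * (C * (T * ℓ))) := by gcongr
      _ = qq C ^ (m - 2) * ((Γ.card : ℝ) ^ (m - 2) * (88 * C * (V / (T * ℓ)) * (T * ℓ) ^ 2)) := by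
        rw [mul_pow]; field_simp
      _ ≤ (64 * (K0 C : ℝ) ^ 2 / Real.sqrt m) * ((Γ.card : ℝ) ^ (m - 2) *
          (88 * C * (V / (T * ℓ)) * (C ^ 2 * (Γ.card : ℝ) ^ 2))) := by gcongr
      _ = _ := by rw [e1]; ring
  have h7 : C5 C * (V / (T * ℓ)) * ((Γ.card : ℝ) ^ m / Real.sqrt m) =
      (2 * K0 C + 1) * (160 * C ^ 2) * (V / (T * ℓ)) * ((Γ.card : ℝ) ^ m / Real.sqrt m) +
      5632 * (K0 C : ℝ) ^ 2 * C ^ 3 * (V / (T * ℓ)) * ((Γ.card : ℝ) ^ m / Real.sqrt m) := by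
    unfold C5; ring
  rw [h7]
  linarith

end Pool.Agent.L7h52.LO
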