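import Pool.Agent.L7h52.LO.Mom

/-! Project LO: the upper bound. -/

set_option autoImplicit false

open Finset MeasureTheory

namespace Pool.Agent.L7h52.LO

open Pool.Agent.L7h52.AR (G Dat cnt G_cont G_le G_eq msq G_abs G_neg s_cnt)

lemma amgm {m : ℕ} (hm : 1 ≤ m) (a : Fin m → ℝ) (ha : ∀ i, 0 ≤ a i) :
    ∏ i, a i ≤ 1 / m * ∑ i, a i ^ m := by
  have hm0 : (0 : ℝ) < m := by exact_mod_cast hm
  have h1 := Real.geom_mean_le_arith_mean_weighted (univ : Finset (Fin m)) (fun _ => (1 / m : ℝ))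
    (fun i => a i ^ m) (fun i _ => by positivity) (by
      rw [sum_const, card_univ, Fintype.card_fin, nsmul_eq_mul]; field_simp)
    (fun i _ => pow_nonneg (ha i) m)
  rw [mul_sum]
  refine le_trans (le_of_eq ?_) h1
  refine prod_congr rfl fun i _ => ?_
  rw [← Real.rpow_natCast, ← Real.rpow_mul (ha i), mul_one_div, div_self hm0.ne', Real.rpow_one]

/-- one factor -/
lemma factor {Γ : Finset ℝ} {T ℓ C : ℝ} (hD : Dat Γ T ℓ C) (hT : 4 * C ^ 2 ≤ T) (m : ℕ)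
    (hm : 2 ≤ m) (r b : ℝ) (hb : 0 < b) (hr : b ≤ |r|) :
    ∫ u in (-(ℓ / (2 * Real.pi * b)))..(ℓ / (2 * Real.pi * b)), ‖G Γ (2 * Real.pi * r * u)‖ ^ m ≤
      C5 C / (Real.pi * b * T) * ((Γ.card : ℝ) ^ m / Real.sqrt m) := by
  have hl0 : 0 < ℓ := by linarith [hD.hl]
  have hT0 : 0 < T := by linarith [hD.hT]
  have hpi := Real.pi_pos
  have hr0 : 0 < |r| := by linarith
  have hGc := G_cont Γ
  have h1 : ∀ u : ℝ, ‖G Γ (2 * Real.pi * r * u)‖ = ‖G Γ (2 * Real.pi * |r| * u)‖ := by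
    intro u
    rw [← G_abs Γ (2 * Real.pi * r * u), ← G_abs Γ (2 * Real.pi * |r| * u)]
    congr 2
    rw [abs_mul, abs_mul (2 * Real.pi * |r|), abs_mul, abs_mul (2 * Real.pi) |r|, abs_abs]
  simp only [h1]
  have hc0 : 2 * Real.pi * |r| ≠ 0 := by positivity
  rw [intervalIntegral.integral_comp_mul_left (fun v => ‖G Γ v‖ ^ m) hc0]
  obtain ⟨V, hV⟩ : ∃ V : ℝ, V = |r| * ℓ / b := ⟨_, rfl⟩
  have e1 : 2 * Real.pi * |r| * (ℓ / (2 * Real.pi * b)) = V := by rw [hV]; field_simp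
  have e2 : 2 * Real.pi * |r| * -(ℓ / (2 * Real.pi * b)) = -V := by rw [mul_neg, e1]
  rw [e1, e2, smul_eq_mul]
  have hVl : ℓ ≤ V := by
    rw [hV, le_div_iff₀ hb]
    nlinarith
  have hint : ∀ a b : ℝ, IntervalIntegrable (fun v : ℝ => ‖G Γ v‖ ^ m) volume a b :=
    fun a b => Continuous.intervalIntegrable (by fun_prop) a b
  have h2 : ∫ v in (-V)..V, ‖G Γ v‖ ^ m = 2 * ∫ v in (0 : ℝ)..V, ‖G Γ v‖ ^ m := by
    rw [← intervalIntegral.integral_add_adjacent_intervals (hint (-V) 0) (hint 0 V)]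
    have h3 : ∫ v in (-V)..0, ‖G Γ v‖ ^ m = ∫ v in (0 : ℝ)..V, ‖G Γ v‖ ^ m := by
      have := intervalIntegral.integral_comp_neg (a := 0) (b := V) (fun v => ‖G Γ v‖ ^ m)
      rw [neg_zero] at this
      rw [← this]
      simp only [G_neg]
    rw [h3]; ring
  rw [h2]
  have h3 := moment hD hT m hm V hVl
  calc (2 * Real.pi * |r|)⁻¹ * (2 * ∫ v in (0 : ℝ)..V, ‖G Γ v‖ ^ m) ≤
      (2 * Real.pi * |r|)⁻¹ * (2 * (C5 C * (V / (T * ℓ)) * ((Γ.card : ℝ) ^ m / Real.sqrt m))) := by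
        gcongr
    _ = C5 C / (Real.pi * b * T) * ((Γ.card : ℝ) ^ m / Real.sqrt m) := by
        rw [hV]; field_simp

/-- **the upper bound** -/
theorem up {Γ : Finset ℝ} {T ℓ C : ℝ} (hD : Dat Γ T ℓ C) (hT : 4 * C ^ 2 ≤ T) (m : ℕ)
    (hm : 2 ≤ m) (r : Fin m → ℝ) (b y : ℝ) (hb : 0 < b) (hr : ∀ i, b ≤ |r i|) :
    cnt Γ r y (b / ℓ) ≤ 4 * C5 C * C * ((Γ.card : ℝ) ^ (m - 1) / Real.sqrt m) := by
  have hl0 : 0 < ℓ := by linarith [hD.hl]
  have hT0 : 0 < T := by linarith [hD.hT]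
  have hC0 : 0 < C := by linarith [hD.hC]
  have hpi := Real.pi_pos
  have hGc := G_cont Γ
  have hm0 : (0 : ℝ) < m := by exact_mod_cast (by omega : 0 < m)
  have hsm : 0 < Real.sqrt m := Real.sqrt_pos.2 hm0
  have hC5 := C5_nonneg C hC0.le
  obtain ⟨E, hE⟩ : ∃ E : ℝ, E = ℓ / (2 * Real.pi * b) := ⟨_, rfl⟩
  have hE0 : 0 < E := by rw [hE]; positivity
  have h1 := s_cnt Γ m r y E hE0
  have hw : 1 / (2 * Real.pi * E) = b / ℓ := by rw [hE]; field_simp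
  rw [hw] at h1
  have h2 : ∫ u in (-E)..E, ∏ i, ‖G Γ (2 * Real.pi * r i * u)‖ ≤
      C5 C / (Real.pi * b * T) * ((Γ.card : ℝ) ^ m / Real.sqrt m) := by
    have e1 : ∫ u in (-E)..E, ∏ i, ‖G Γ (2 * Real.pi * r i * u)‖ ≤
        ∫ u in (-E)..E, 1 / m * ∑ i, ‖G Γ (2 * Real.pi * r i * u)‖ ^ m := by
      apply intervalIntegral.integral_mono_on (by linarith)
      · exact (continuous_finsetProd _ fun i _ => by fun_prop).intervalIntegrable _ _
      · exact (continuous_const.mul (continuous_finsetSum _ fun i _ => by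
          fun_prop)).intervalIntegrable _ _
      · intro u _
        exact amgm (by omega) _ fun i => norm_nonneg _
    refine e1.trans ?_
    rw [intervalIntegral.integral_const_mul, intervalIntegral.integral_finsetSum
      (fun i _ => Continuous.intervalIntegrable (by fun_prop) _ _)]
    have e2 : ∀ i ∈ (univ : Finset (Fin m)), ∫ u in (-E)..E, ‖G Γ (2 * Real.pi * r i * u)‖ ^ m ≤
        C5 C / (Real.pi * b * T) * ((Γ.card : ℝ) ^ m / Real.sqrt m) := by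
      intro i _
      rw [hE]
      exact factor hD hT m hm (r i) b hb (hr i)
    calc 1 / (m : ℝ) * ∑ i, ∫ u in (-E)..E, ‖G Γ (2 * Real.pi * r i * u)‖ ^ m ≤
        1 / (m : ℝ) * ∑ _i : Fin m, C5 C / (Real.pi * b * T) * ((Γ.card : ℝ) ^ m / Real.sqrt m) := by
          gcongr with i hi
          exact e2 i hi
      _ = _ := by
          rw [sum_const, card_univ, Fintype.card_fin, nsmul_eq_mul]
          field_simp
  have h3 : cnt Γ r y (b / ℓ) * E ≤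
      (4 * C5 C / (T * ℓ) * ((Γ.card : ℝ) ^ m / Real.sqrt m)) * E := by
    calc cnt Γ r y (b / ℓ) * E ≤ 2 * ∫ u in (-E)..E, ∏ i, ‖G Γ (2 * Real.pi * r i * u)‖ := h1
      _ ≤ 2 * (C5 C / (Real.pi * b * T) * ((Γ.card : ℝ) ^ m / Real.sqrt m)) := by gcongr
      _ = _ := by rw [hE]; field_simp; ring
  have h4 := le_of_mul_le_mul_right h3 hE0
  refine h4.trans ?_
  have e1 : (Γ.card : ℝ) ^ m = (Γ.card : ℝ) ^ (m - 1) * Γ.card := by
    rw [← pow_succ]; congr 1; omega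
  have e2 : (Γ.card : ℝ) / (T * ℓ) ≤ C := by
    rw [div_le_iff₀ (by positivity)]; exact hD.up
  calc 4 * C5 C / (T * ℓ) * ((Γ.card : ℝ) ^ m / Real.sqrt m) =
      4 * C5 C * ((Γ.card : ℝ) / (T * ℓ)) * ((Γ.card : ℝ) ^ (m - 1) / Real.sqrt m) := by
        rw [e1]; ring
    _ ≤ 4 * C5 C * C * ((Γ.card : ℝ) ^ (m - 1) / Real.sqrt m) := by gcongr

end Pool.Agent.L7h52.LO
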