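import Pool.Agent.L7h52.LO.Up

/-! Project LO: the upper bound for several sets. -/

set_option autoImplicit false

open Finset MeasureTheory Complex

namespace Pool.Agent.L7h52.LO

open Pool.Agent.L7h52.AR (G Dat G_cont G_le G_eq)
open H177.Lat (tri tri_nonneg tri_zero tri_in tri_integrable KK KK_nonneg KK_le KK_sq)
open Pool.Agent.TH801.LR (prod_Sx KK_near ar3)

/-- number of tuples of `∏ A i` at which the linear form is within `w` of `y` -/
noncomputable def cntA {m : ℕ} (A : Fin m → Finset ℝ) (r : Fin m → ℝ) (y w : ℝ) : ℝ :=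
  (((Fintype.piFinset A).filter (fun x : Fin m → ℝ => |∑ i, r i * x i - y| ≤ w)).card : ℝ)

/-- the sum over all tuples -/
lemma tupA {m : ℕ} (A : Fin m → Finset ℝ) (r : Fin m → ℝ) (y u : ℝ) :
    ∑ x ∈ Fintype.piFinset A, Real.cos (2 * Real.pi * u * (∑ i, r i * x i - y)) ≤
      ∏ i, ‖G (A i) (2 * Real.pi * r i * u)‖ := by
  have e2 : ∑ x ∈ Fintype.piFinset A,
      Real.cos (2 * Real.pi * u * (∑ i, r i * x i - y)) =
      (cexp (((-(2 * Real.pi * u * y) : ℝ) : ℂ) * I) *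
        ∏ i, G (A i) (2 * Real.pi * r i * u)).re := by
    have h0 : ∏ i, G (A i) (2 * Real.pi * r i * u) =
        ∑ x ∈ Fintype.piFinset A,
          cexp (I * ((∑ i, (2 * Real.pi * r i * u) * x i : ℝ) : ℂ)) :=
      prod_Sx A (fun i => 2 * Real.pi * r i * u)
    rw [h0, mul_sum, Complex.re_sum]
    refine sum_congr rfl fun x _ => ?_
    rw [← Complex.exp_add]
    have e4 : 2 * Real.pi * u * (∑ i, r i * x i - y) = -(2 * Real.pi * u * y) +
        ∑ i, (2 * Real.pi * r i * u) * x i := by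
      rw [mul_sub, mul_sum]
      have : ∑ i, 2 * Real.pi * u * (r i * x i) = ∑ i, (2 * Real.pi * r i * u) * x i :=
        sum_congr rfl fun i _ => by ring
      rw [this]; ring
    rw [e4, ← Complex.exp_ofReal_mul_I_re]
    congr 2
    push_cast; ring
  rw [e2]
  refine (Complex.re_le_norm _).trans ?_
  rw [norm_mul, Complex.norm_exp_ofReal_mul_I, one_mul, norm_prod]

theorem s_cntA {m : ℕ} (A : Fin m → Finset ℝ) (r : Fin m → ℝ) (y E : ℝ) (hE : 0 < E) :
    cntA A r y (1 / (2 * Real.pi * E)) * E ≤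
      2 * ∫ u in (-E)..E, ∏ i, ‖G (A i) (2 * Real.pi * r i * u)‖ := by
  have hpi0 := Real.pi_pos
  set z : (Fin m → ℝ) → ℝ := fun x => ∑ i, r i * x i - y with hz
  set F : ℝ → ℝ := fun u => ∏ i, ‖G (A i) (2 * Real.pi * r i * u)‖ with hF
  have hFc : Continuous F := by
    simp only [hF]
    refine continuous_finsetProd _ fun i _ => ?_
    have := G_cont (A i)
    fun_prop
  have hF0 : ∀ u, 0 ≤ F u := fun u => by
    simp only [hF]; exact prod_nonneg fun _ _ => norm_nonneg _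
  have hti : ∀ x : ℝ, Integrable (fun v => tri E v * Real.cos (2 * Real.pi * v * x)) :=
    fun x => tri_integrable hE (by fun_prop)
  have hind : Integrable ((Set.Icc (-E) E).indicator F) := by
    rw [integrable_indicator_iff measurableSet_Icc]
    exact hFc.integrableOn_Icc
  have hindint : ∫ u, (Set.Icc (-E) E).indicator F u = ∫ u in (-E)..E, F u := by
    rw [integral_indicator measurableSet_Icc, integral_Icc_eq_integral_Ioc,
      ← intervalIntegral.integral_of_le (by linarith)]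
  have hsum : ∑ x ∈ Fintype.piFinset A, KK E (z x) ≤ ∫ u in (-E)..E, F u := by
    rw [← hindint]
    have e1 : ∑ x ∈ Fintype.piFinset A, KK E (z x) =
        ∫ u, ∑ x ∈ Fintype.piFinset A,
          tri E u * Real.cos (2 * Real.pi * u * z x) := by
      rw [integral_finsetSum _ fun x _ => hti _]
      rfl
    rw [e1]
    refine integral_mono (integrable_finsetSum _ fun x _ => hti _) hind ?_
    intro u
    show ∑ x ∈ Fintype.piFinset A,
      tri E u * Real.cos (2 * Real.pi * u * z x) ≤ (Set.Icc (-E) E).indicator F u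
    rw [← mul_sum]
    rcases le_or_gt (|u|) E with hu | hu
    · have htr1 : tri E u ≤ 1 := by
        unfold tri
        apply max_le (by norm_num)
        have : 0 ≤ |u| / E := by positivity
        linarith
      rw [Set.indicator_of_mem (Set.mem_Icc.2 (abs_le.1 hu))]
      exact ar3 _ _ _ (tri_nonneg E u) htr1 (tupA A r y u) (hF0 u)
    · rw [tri_zero hE hu.le, zero_mul]
      exact Set.indicator_nonneg (fun u _ => hF0 u) u
  have hlow : cntA A r y (1 / (2 * Real.pi * E)) * (E / 2) ≤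
      ∑ x ∈ Fintype.piFinset A, KK E (z x) := by
    unfold cntA
    rw [← nsmul_eq_mul, ← sum_const]
    refine le_trans (sum_le_sum fun x hx => ?_)
      (sum_le_sum_of_subset_of_nonneg (filter_subset _ _) fun x _ _ => KK_nonneg hE _)
    rw [mem_filter] at hx
    apply KK_near hE
    have h1 : |z x| ≤ 1 / (2 * Real.pi * E) := hx.2
    rw [le_div_iff₀ (by positivity)] at h1
    linarith
  have := hlow.trans hsum
  linarith

lemma amgmS {m : ℕ} (S : Finset (Fin m)) (hS : S.Nonempty) (a : Fin m → ℝ) (ha : ∀ i, 0 ≤ a i) :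
    ∏ i ∈ S, a i ≤ 1 / S.card * ∑ i ∈ S, a i ^ S.card := by
  have hm1 : 1 ≤ S.card := hS.card_pos
  have hm0 : (0 : ℝ) < S.card := by exact_mod_cast hm1
  have h1 := Real.geom_mean_le_arith_mean_weighted S (fun _ => (1 / S.card : ℝ))
    (fun i => a i ^ S.card) (fun i _ => by positivity) (by
      rw [sum_const, nsmul_eq_mul]; field_simp)
    (fun i _ => pow_nonneg (ha i) _)
  rw [mul_sum]
  refine le_trans (le_of_eq ?_) h1
  refine prod_congr rfl fun i _ => ?_
  rw [← Real.rpow_natCast, ← Real.rpow_mul (ha i), mul_one_div, div_self hm0.ne', Real.rpow_one]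

/-- the properties are inherited by dense subsets -/
lemma dense {Γ A : Finset ℝ} {T ℓ C η : ℝ} (hD : Dat Γ T ℓ C) (hA : A ⊆ Γ) (hη : 0 < η)
    (hη1 : η ≤ 1) (h : η * Γ.card ≤ A.card) : Dat A T ℓ (C / η) := by
  have hC0 : 0 < C := by linarith [hD.hC]
  have hl0 : 0 < ℓ := by linarith [hD.hl]
  have hT0 : 0 < T := by linarith [hD.hT]
  have hCη : C ≤ C / η := by rw [le_div_iff₀ hη]; nlinarith
  refine ⟨hD.hC.trans hCη, hD.hT, hD.hl, fun x hx => hD.pos x (hA hx), ?_, ?_, ?_, ?_⟩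
  · have h1 : (A.card : ℝ) ≤ Γ.card := by exact_mod_cast card_le_card hA
    calc (A.card : ℝ) ≤ Γ.card := h1
      _ ≤ C * (T * ℓ) := hD.up
      _ ≤ C / η * (T * ℓ) := by gcongr
  · calc T * ℓ ≤ C * Γ.card := hD.low
      _ = C / η * (η * Γ.card) := by field_simp
      _ ≤ C / η * A.card := by gcongr
  · have h1 : ∑ x ∈ A, ∑ y ∈ A, 1 / (1 + (ℓ * (x - y)) ^ 2) ≤
        ∑ x ∈ Γ, ∑ y ∈ Γ, 1 / (1 + (ℓ * (x - y)) ^ 2) := by
      refine le_trans (sum_le_sum fun x _ => sum_le_sum_of_subset_of_nonneg hA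
        fun y _ _ => by positivity) (sum_le_sum_of_subset_of_nonneg hA fun x _ _ =>
          sum_nonneg fun y _ => by positivity)
    refine h1.trans (hD.pairs.trans ?_)
    gcongr
  · intro a h0 hh
    have h1 : ((A.filter (fun x => a ≤ x ∧ x ≤ a + h0)).card : ℝ) ≤
        ((Γ.filter (fun x => a ≤ x ∧ x ≤ a + h0)).card : ℝ) := by
      exact_mod_cast card_le_card (filter_subset_filter _ hA)
    refine h1.trans ((hD.loc a h0 hh).trans ?_)
    gcongr

/-- **the upper bound for several sets** -/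
theorem upA {T ℓ C : ℝ} (hT : 4 * C ^ 2 ≤ T) (hT1 : 1 ≤ T) (hl : 1 ≤ ℓ) (hC : 1 ≤ C) {m : ℕ}
    (A : Fin m → Finset ℝ) (S : Finset (Fin m)) (hS : 2 ≤ S.card)
    (hD : ∀ i ∈ S, Dat (A i) T ℓ C) (r : Fin m → ℝ) (b y : ℝ) (hb : 0 < b)
    (hr : ∀ i ∈ S, b ≤ |r i|) :
    cntA A r y (b / ℓ) * (Real.sqrt S.card * (T * ℓ)) ≤ 4 * C5 C * ∏ i, ((A i).card : ℝ) := by
  classical
  have hl0 : 0 < ℓ := by linarith
  have hT0 : 0 < T := by linarith
  have hC0 : 0 < C := by linarith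
  have hpi := Real.pi_pos
  have hSne : S.Nonempty := by rw [← card_pos]; omega
  have hk0 : (0 : ℝ) < S.card := by exact_mod_cast hSne.card_pos
  have hsk : 0 < Real.sqrt S.card := Real.sqrt_pos.2 hk0
  have hC5 := C5_nonneg C hC0.le
  obtain ⟨E, hE⟩ : ∃ E : ℝ, E = ℓ / (2 * Real.pi * b) := ⟨_, rfl⟩
  have hE0 : 0 < E := by rw [hE]; positivity
  have h1 := s_cntA A r y E hE0
  have hw : 1 / (2 * Real.pi * E) = b / ℓ := by rw [hE]; field_simp
  rw [hw] at h1
  have hcard0 : ∀ i ∈ S, 0 < ((A i).card : ℝ) := by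
    intro i hi
    have h := (hD i hi).low
    by_contra hneg
    push Not at hneg
    have h2 : C * ((A i).card : ℝ) ≤ 0 := mul_nonpos_of_nonneg_of_nonpos hC0.le hneg
    have h3 : 0 < T * ℓ := by positivity
    linarith
  obtain ⟨P, hP⟩ : ∃ P : ℝ, P = ∏ i, ((A i).card : ℝ) := ⟨_, rfl⟩
  have hP0 : 0 ≤ P := by rw [hP]; exact prod_nonneg fun _ _ => Nat.cast_nonneg _
  -- pointwise bound
  have hpt : ∀ u : ℝ, ∏ i, ‖G (A i) (2 * Real.pi * r i * u)‖ ≤
      P * (1 / S.card * ∑ i ∈ S,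
        (‖G (A i) (2 * Real.pi * r i * u)‖ ^ S.card / ((A i).card : ℝ) ^ S.card)) := by
    intro u
    have e1 : ∏ i, ‖G (A i) (2 * Real.pi * r i * u)‖ =
        (∏ i ∈ S, ‖G (A i) (2 * Real.pi * r i * u)‖) *
          ∏ i ∈ Sᶜ, ‖G (A i) (2 * Real.pi * r i * u)‖ :=
      (prod_mul_prod_compl S _).symm
    have e2 : P = (∏ i ∈ S, ((A i).card : ℝ)) * ∏ i ∈ Sᶜ, ((A i).card : ℝ) := by
      rw [hP]; exact (prod_mul_prod_compl S _).symm
    have e3 : ∏ i ∈ Sᶜ, ‖G (A i) (2 * Real.pi * r i * u)‖ ≤ ∏ i ∈ Sᶜ, ((A i).card : ℝ) :=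
      prod_le_prod (fun i _ => norm_nonneg _) fun i _ => G_le _ _
    have e4 : ∏ i ∈ S, ‖G (A i) (2 * Real.pi * r i * u)‖ =
        (∏ i ∈ S, ((A i).card : ℝ)) *
          ∏ i ∈ S, (‖G (A i) (2 * Real.pi * r i * u)‖ / ((A i).card : ℝ)) := by
      rw [← prod_mul_distrib]
      refine prod_congr rfl fun i hi => ?_
      have := hcard0 i hi
      field_simp
    have e5 := amgmS S hSne (fun i => ‖G (A i) (2 * Real.pi * r i * u)‖ / ((A i).card : ℝ))
      (fun i => by positivity)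
    have e6 : 0 ≤ ∏ i ∈ S, ((A i).card : ℝ) := prod_nonneg fun _ _ => Nat.cast_nonneg _
    have e7 : 0 ≤ ∏ i ∈ Sᶜ, ((A i).card : ℝ) := prod_nonneg fun _ _ => Nat.cast_nonneg _
    rw [e1, e4, e2]
    calc (∏ i ∈ S, ((A i).card : ℝ)) *
          (∏ i ∈ S, (‖G (A i) (2 * Real.pi * r i * u)‖ / ((A i).card : ℝ))) *
          ∏ i ∈ Sᶜ, ‖G (A i) (2 * Real.pi * r i * u)‖ ≤
        (∏ i ∈ S, ((A i).card : ℝ)) *
          (1 / S.card * ∑ i ∈ S, (‖G (A i) (2 * Real.pi * r i * u)‖ / ((A i).card : ℝ)) ^ S.card) *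
          ∏ i ∈ Sᶜ, ((A i).card : ℝ) := by
          apply mul_le_mul (mul_le_mul_of_nonneg_left e5 e6) e3
            (prod_nonneg fun _ _ => norm_nonneg _)
          apply mul_nonneg e6
          apply mul_nonneg (by positivity)
          exact sum_nonneg fun i _ => by positivity
      _ = _ := by
          simp only [div_pow]
          ring
  have hcont : ∀ i, Continuous (fun u : ℝ =>
      ‖G (A i) (2 * Real.pi * r i * u)‖ ^ S.card / ((A i).card : ℝ) ^ S.card) := by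
    intro i
    have := G_cont (A i)
    fun_prop
  have h2 : ∫ u in (-E)..E, ∏ i, ‖G (A i) (2 * Real.pi * r i * u)‖ ≤
      P * (C5 C / (Real.pi * b * T) / Real.sqrt S.card) := by
    have e1 : ∫ u in (-E)..E, ∏ i, ‖G (A i) (2 * Real.pi * r i * u)‖ ≤
        ∫ u in (-E)..E, P * (1 / S.card * ∑ i ∈ S,
          (‖G (A i) (2 * Real.pi * r i * u)‖ ^ S.card / ((A i).card : ℝ) ^ S.card)) := by
      apply intervalIntegral.integral_mono_on (by linarith)
      · refine (continuous_finsetProd _ fun i _ => ?_).intervalIntegrable _ _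
        have := G_cont (A i)
        fun_prop
      · exact (continuous_const.mul (continuous_const.mul (continuous_finsetSum _ fun i _ =>
          hcont i))).intervalIntegrable _ _
      · intro u _
        exact hpt u
    refine e1.trans ?_
    rw [intervalIntegral.integral_const_mul, intervalIntegral.integral_const_mul,
      intervalIntegral.integral_finsetSum
      (fun i _ => (hcont i).intervalIntegrable _ _)]
    apply mul_le_mul_of_nonneg_left _ hP0
    have e2 : ∀ i ∈ S, ∫ u in (-E)..E,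
        (‖G (A i) (2 * Real.pi * r i * u)‖ ^ S.card / ((A i).card : ℝ) ^ S.card) ≤
        C5 C / (Real.pi * b * T) / Real.sqrt S.card := by
      intro i hi
      rw [intervalIntegral.integral_div, hE]
      have h3 := factor (hD i hi) hT S.card hS (r i) b hb (hr i hi)
      have hpos : 0 < ((A i).card : ℝ) ^ S.card := pow_pos (hcard0 i hi) _
      rw [div_le_iff₀ hpos]
      refine h3.trans (le_of_eq ?_)
      ring
    calc 1 / (S.card : ℝ) * ∑ i ∈ S, ∫ u in (-E)..E,
          (‖G (A i) (2 * Real.pi * r i * u)‖ ^ S.card / ((A i).card : ℝ) ^ S.card) ≤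
        1 / (S.card : ℝ) * ∑ _i ∈ S, C5 C / (Real.pi * b * T) / Real.sqrt S.card := by
          gcongr with i hi
          exact e2 i hi
      _ = _ := by
          rw [sum_const, nsmul_eq_mul]
          field_simp
  have h3 : cntA A r y (b / ℓ) * (Real.sqrt S.card * (T * ℓ)) * E ≤
      (4 * C5 C * P) * E := by
    have e0 : cntA A r y (b / ℓ) * E ≤ 2 * (P * (C5 C / (Real.pi * b * T) / Real.sqrt S.card)) :=
      h1.trans (by gcongr)
    calc cntA A r y (b / ℓ) * (Real.sqrt S.card * (T * ℓ)) * E =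
        (cntA A r y (b / ℓ) * E) * (Real.sqrt S.card * (T * ℓ)) := by ring
      _ ≤ (2 * (P * (C5 C / (Real.pi * b * T) / Real.sqrt S.card))) *
          (Real.sqrt S.card * (T * ℓ)) := by gcongr
      _ = (4 * C5 C * P) * E := by rw [hE]; field_simp; ring
  have h4 := le_of_mul_le_mul_right h3 hE0
  rw [hP] at h4
  exact h4

/-- the dependence of the constant -/
lemma C5_le (C η : ℝ) (hC : 1 ≤ C) (hη : 0 < η) (hη1 : η ≤ 1) :
    C5 (C / η) ≤ (10 : ℝ) ^ 8 * C ^ 9 / η ^ 9 := by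
  obtain ⟨c, hc⟩ : ∃ c : ℝ, c = C / η := ⟨_, rfl⟩
  have hc1 : 1 ≤ c := by rw [hc, le_div_iff₀ hη]; linarith
  have hK : (K0 c : ℝ) ≤ 89 * c ^ 3 := by
    unfold K0
    push_cast
    have h1 : (⌊88 * c ^ 3⌋₊ : ℝ) ≤ 88 * c ^ 3 := Nat.floor_le (by positivity)
    have h2 : 1 ≤ c ^ 3 := one_le_pow₀ hc1
    linarith
  have h3 : (10 : ℝ) ^ 8 * C ^ 9 / η ^ 9 = 10 ^ 8 * c ^ 9 := by rw [hc, div_pow]; ring
  rw [← hc, h3]
  unfold C5
  have hK0 : (0 : ℝ) ≤ K0 c := Nat.cast_nonneg _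
  have e1 : c ^ 2 ≤ c ^ 9 := pow_le_pow_right₀ hc1 (by norm_num)
  have e2 : c ^ 5 ≤ c ^ 9 := pow_le_pow_right₀ hc1 (by norm_num)
  calc (2 * (K0 c : ℝ) + 1) * (160 * c ^ 2) + 5632 * (K0 c : ℝ) ^ 2 * c ^ 3 ≤
      (2 * (89 * c ^ 3) + 1) * (160 * c ^ 2) + 5632 * (89 * c ^ 3) ^ 2 * c ^ 3 := by gcongr
    _ = 28480 * c ^ 5 + 160 * c ^ 2 + 44611072 * c ^ 9 := by ring
    _ ≤ 10 ^ 8 * c ^ 9 := by
      have : 0 ≤ c ^ 9 := by positivity
      nlinarith

end Pool.Agent.L7h52.LO
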